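import Mathlib
import Pool.Agent.H362R2.CM.Dens
import Pool.Agent.H362R2.CM.Moon

/-! Densities of the good sets: the limit `T = 18 m → ∞` with `5 m` classes, and pairs with four classes. -/

set_option autoImplicit false

namespace Pool.Agent.K1H50.LM

open Finset
open Pool.Agent.H362R2.CM

theorem qlim5 (k : ℕ) (hk : 1 ≤ k) (ε : ℝ) (hε : 0 < ε) :
    ∃ m : ℕ, 1 ≤ m ∧ k + 1 ≤ 18 * m ∧ ∃ q : ℝ, q ≤ 1 ∧ (5 / 18 : ℝ) ^ k - ε ≤ q ∧
      ((k : ℝ) + 1) * (q * (18 * m).choose (k + 1)) ≤
        (18 * m : ℕ) * (((5 * m - 1).choose k : ℝ) - (18 * m - 2).choose (k - 1)) := by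
  obtain ⟨m0, hm0⟩ := exists_nat_ge (2 * (k : ℝ) ^ 2 / ε)
  set m := max m0 (k + 1) with hm
  have hmk : k + 1 ≤ m := le_max_right _ _
  have hm1 : (1 : ℝ) ≤ m := by exact_mod_cast (by omega : 1 ≤ m)
  have hmm0 : 2 * (k : ℝ) ^ 2 / ε ≤ m := hm0.trans (by exact_mod_cast le_max_left _ _)
  have hC : 0 < (18 * m - 1).choose k := Nat.choose_pos (by omega)
  have hC' : (0 : ℝ) < ((18 * m - 1).choose k : ℝ) := by exact_mod_cast hC
  set q : ℝ := (((5 * m - 1).choose k : ℝ) - (18 * m - 2).choose (k - 1)) /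
    ((18 * m - 1).choose k : ℝ) with hq
  refine ⟨m, by omega, by omega, q, ?_, ?_, ?_⟩
  · rw [hq, div_le_one hC']
    have h1 : ((5 * m - 1).choose k : ℝ) ≤ ((18 * m - 1).choose k : ℝ) := by
      exact_mod_cast Nat.choose_le_choose k (by omega : 5 * m - 1 ≤ 18 * m - 1)
    have h2 : (0 : ℝ) ≤ ((18 * m - 2).choose (k - 1) : ℝ) := Nat.cast_nonneg _
    linarith
  · have hkf : (0 : ℝ) < k.factorial := by exact_mod_cast Nat.factorial_pos _
    have h1 : (5 * (m : ℝ) - k) ^ k / k.factorial ≤ ((5 * m - 1).choose k : ℝ) := by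
      have := Nat.pow_le_choose (α := ℝ) k (5 * m - 1)
      have e : 5 * m - 1 + 1 - k = 5 * m - k := by omega
      rw [e, Nat.cast_sub (by omega)] at this
      push_cast at this
      exact this
    have h2 : ((18 * m - 1).choose k : ℝ) ≤ (18 * (m : ℝ)) ^ k / k.factorial := by
      have h3 := Nat.choose_le_pow_div (α := ℝ) k (18 * m - 1)
      refine h3.trans ?_
      apply div_le_div_of_nonneg_right _ hkf.le
      apply pow_le_pow_left₀ (Nat.cast_nonneg _)
      have : ((18 * m - 1 : ℕ) : ℝ) ≤ ((18 * m : ℕ) : ℝ) := by exact_mod_cast Nat.sub_le _ _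
      push_cast at this
      exact this
    have h4 : (5 / 18 : ℝ) ^ k - (k : ℝ) ^ 2 / m ≤
        ((5 * m - 1).choose k : ℝ) / ((18 * m - 1).choose k : ℝ) := by
      have hmpos : (0 : ℝ) < m := by linarith
      have hkm : (k : ℝ) / (5 * m) ≤ 1 := by
        rw [div_le_one (by positivity)]
        have : (k : ℝ) + 1 ≤ m := by exact_mod_cast hmk
        linarith
      have hk0 : (0 : ℝ) ≤ k := Nat.cast_nonneg k
      have e1 : (5 / 18 : ℝ) ^ k * (1 - (k : ℝ) * ((k : ℝ) / (5 * m))) ≤
          (5 / 18 : ℝ) ^ k * (1 - (k : ℝ) / (5 * m)) ^ k := by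
        apply mul_le_mul_of_nonneg_left _ (by positivity)
        have := one_add_mul_le_pow (a := -((k : ℝ) / (5 * m))) (by linarith) k
        calc 1 - (k : ℝ) * ((k : ℝ) / (5 * m)) = 1 + k * -((k : ℝ) / (5 * m)) := by ring
          _ ≤ (1 + -((k : ℝ) / (5 * m))) ^ k := this
          _ = _ := by ring_nf
      have e2 : (5 / 18 : ℝ) ^ k * (1 - (k : ℝ) / (5 * m)) ^ k =
          (5 * (m : ℝ) - k) ^ k / (18 * (m : ℝ)) ^ k := by
        rw [← mul_pow, ← div_pow]
        congr 1
        field_simp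
      have e3 : (5 * (m : ℝ) - k) ^ k / (18 * (m : ℝ)) ^ k ≤
          ((5 * m - 1).choose k : ℝ) / ((18 * m - 1).choose k : ℝ) := by
        rw [div_le_div_iff₀ (by positivity) hC']
        have h5 : (5 * (m : ℝ) - k) ^ k ≤ ((5 * m - 1).choose k : ℝ) * k.factorial := by
          rwa [div_le_iff₀ hkf] at h1
        have h6 : ((18 * m - 1).choose k : ℝ) * k.factorial ≤ (18 * (m : ℝ)) ^ k := by
          rwa [le_div_iff₀ hkf] at h2
        have h7 : (0 : ℝ) ≤ (5 * (m : ℝ) - k) ^ k := by
          apply pow_nonneg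
          have : (k : ℝ) + 1 ≤ m := by exact_mod_cast hmk
          linarith
        have h8 : (0 : ℝ) ≤ ((5 * m - 1).choose k : ℝ) := Nat.cast_nonneg _
        have h9 : (5 * (m : ℝ) - k) ^ k * (((18 * m - 1).choose k : ℝ) * k.factorial) ≤
            (((5 * m - 1).choose k : ℝ) * k.factorial) * (18 * (m : ℝ)) ^ k :=
          mul_le_mul h5 h6 (by positivity) (by positivity)
        have h10 : ((5 * (m : ℝ) - k) ^ k * ((18 * m - 1).choose k : ℝ)) * k.factorial ≤
            (((5 * m - 1).choose k : ℝ) * (18 * (m : ℝ)) ^ k) * k.factorial := by linarith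
        exact le_of_mul_le_mul_right h10 hkf
      have e4 : (5 / 18 : ℝ) ^ k ≤ 1 := pow_le_one₀ (by norm_num) (by norm_num)
      have e40 : (0 : ℝ) ≤ (5 / 18 : ℝ) ^ k := by positivity
      have e5 : (0 : ℝ) ≤ (k : ℝ) ^ 2 / m := by positivity
      have e6 : (k : ℝ) * ((k : ℝ) / (5 * m)) = (k : ℝ) ^ 2 / m / 5 := by field_simp
      rw [e6] at e1
      have e7 : (5 / 18 : ℝ) ^ k * ((k : ℝ) ^ 2 / m / 5) ≤ (k : ℝ) ^ 2 / m := by
        nlinarith
      nlinarith
    have h5 : ((18 * m - 2).choose (k - 1) : ℝ) / ((18 * m - 1).choose k : ℝ) = k / (18 * m - 1) := by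
      have h6 := Nat.add_one_mul_choose_eq (18 * m - 2) (k - 1)
      have e1 : 18 * m - 2 + 1 = 18 * m - 1 := by omega
      have e2 : k - 1 + 1 = k := by omega
      rw [e1, e2] at h6
      have h7 : ((18 * m - 1 : ℕ) : ℝ) * ((18 * m - 2).choose (k - 1) : ℝ) =
          ((18 * m - 1).choose k : ℝ) * k := by
        exact_mod_cast h6
      rw [Nat.cast_sub (by omega)] at h7
      push_cast at h7
      rw [div_eq_div_iff hC'.ne' (by linarith)]
      linarith
    have h6 : (k : ℝ) / (18 * m - 1) ≤ (k : ℝ) ^ 2 / m := by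
      have hk1 : (1 : ℝ) ≤ k := by exact_mod_cast hk
      rw [div_le_div_iff₀ (by linarith) (by linarith)]
      calc (k : ℝ) * m ≤ k * (18 * m - 1) := by
            apply mul_le_mul_of_nonneg_left _ (by linarith)
            linarith
        _ ≤ (k : ℝ) ^ 2 * (18 * m - 1) := by
            apply mul_le_mul_of_nonneg_right _ (by linarith)
            nlinarith
    have h7 : 2 * ((k : ℝ) ^ 2 / m) ≤ ε := by
      rw [div_le_iff₀ hε] at hmm0
      rw [← mul_div_assoc, div_le_iff₀ (by linarith)]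
      linarith
    rw [hq, sub_div, h5]
    linarith
  · have h6 := Nat.add_one_mul_choose_eq (18 * m - 1) k
    have e1 : 18 * m - 1 + 1 = 18 * m := by omega
    rw [e1] at h6
    have h7 : ((18 * m : ℕ) : ℝ) * ((18 * m - 1).choose k : ℝ) =
        ((18 * m).choose (k + 1) : ℝ) * ((k : ℝ) + 1) := by
      exact_mod_cast h6
    have h8 : ((k : ℝ) + 1) * (q * (18 * m).choose (k + 1)) =
        ((18 * m : ℕ) : ℝ) * (q * ((18 * m - 1).choose k : ℝ)) := by
      calc _ = q * (((18 * m).choose (k + 1) : ℝ) * ((k : ℝ) + 1)) := by ring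
        _ = q * (((18 * m : ℕ) : ℝ) * ((18 * m - 1).choose k : ℝ)) := by rw [h7]
        _ = _ := by ring
    rw [h8, hq, div_mul_cancel₀ _ hC'.ne']

/-- the block property: among `T` classes of `L` elements there are `m` classes and elements of these whose
`(k + 1)`-subsets are good -/
def BlockP {α : Type} (T L m k : ℕ) (V : Finset α) (good : Finset α → Prop) : Prop :=
  ∀ A : Fin T × Fin L → α, Function.Injective A → (∀ x, A x ∈ V) →
    ∃ (S : Finset (Fin T)) (c : Fin T → Fin L), m ≤ S.card ∧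
      ∀ U : Finset α, (∀ u ∈ U, ∃ i ∈ S, A (i, c i) = u) → U.card = k + 1 → good U

open Classical in
/-- The density theorem with the constant `(5 / 18) ^ k`. -/
theorem dens5 (k : ℕ) (hk : 1 ≤ k) (ε : ℝ) (hε : 0 < ε) :
    ∃ m : ℕ, 1 ≤ m ∧ ∀ L : ℕ, 1 ≤ L → ∃ n0 : ℕ, ∀ (α : Type) (V : Finset α)
      (good : Finset α → Prop), n0 ≤ V.card → BlockP (18 * m) L (5 * m) k V good →
      ((5 / 18 : ℝ) ^ k - ε) * (V.card.choose (k + 1)) ≤ ((V.powersetCard (k + 1)).filter good).card := by
  obtain ⟨m, hm1, hkm, q, hq1, hqe, hq⟩ := qlim5 k hk (ε / 2) (by positivity)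
  refine ⟨m, hm1, fun L hL => ?_⟩
  obtain ⟨δ, hδ, n0, h⟩ := dens k (18 * m) (5 * m) L hk (by omega) hkm hL q (ε / 2) hq1 (by positivity) hq
  refine ⟨n0, fun α V good hV hP => ?_⟩
  refine le_trans ?_ (h α V good ∅ hV (by simp; positivity) ?_)
  · apply mul_le_mul_of_nonneg_right _ (Nat.cast_nonneg _)
    linarith
  · intro A hA1 hA2 _
    obtain ⟨S, c, h1, h2⟩ := hP A hA1 hA2
    refine ⟨S, c, h1, fun U hU hUc => h2 U (fun u hu => ?_) hUc⟩
    obtain ⟨i, hi, hiu⟩ := mem_image.1 (hU hu)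
    exact ⟨i, hi, hiu⟩

/-- supersaturated Turan theorem for `K_4` -/
theorem turan4 {α : Type} (V : Finset α) (C : α → α → Prop) (hC : ∀ x y, C x y → C y x)
    (hV : 0 < V.card) (δ : ℝ) (hδ : 0 < δ)
    (h : (2 / 3 + δ) * (V.card : ℝ) ^ 2 ≤ ((clq V C 2).card : ℝ)) :
    2 / 3 * δ * (V.card : ℝ) ^ 4 ≤ ((clq V C 4).card : ℝ) := by
  set v : ℝ := (V.card : ℝ) with hv
  have hvp : 0 < v := by rw [hv]; exact_mod_cast hV
  have m1 : ((clq V C 1).card : ℝ) = v := by rw [card_clq_one]
  have hm2 : 0 < ((clq V C 2).card : ℝ) := lt_of_lt_of_le (by positivity) h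
  have s1 : (1 / 3 + 2 * δ) * v * ((clq V C 2).card : ℝ) ≤ ((clq V C 3).card : ℝ) := by
    have := ratio_step (a := ((clq V C 1).card : ℝ)) (b := ((clq V C 2).card : ℝ))
      (c := ((clq V C 3).card : ℝ)) (v := v) (k := 1) (r := 2 / 3 + δ) (by rw [m1]; exact hvp) hm2 hvp
      one_pos (by rw [m1]; nlinarith) (by
        have := moon_moser (V := V) hC 1
        push_cast at this
        exact this)
    refine le_trans (le_of_eq ?_) this
    ring
  have hm3 : 0 < ((clq V C 3).card : ℝ) := lt_of_lt_of_le (by positivity) s1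
  have s2 : (3 * δ) * v * ((clq V C 3).card : ℝ) ≤ ((clq V C 4).card : ℝ) := by
    have := ratio_step (a := ((clq V C 2).card : ℝ)) (b := ((clq V C 3).card : ℝ))
      (c := ((clq V C 4).card : ℝ)) (v := v) (k := 2) (r := 1 / 3 + 2 * δ) hm2 hm3 hvp
      two_pos s1 (by
        have := moon_moser (V := V) hC 2
        push_cast at this
        exact this)
    refine le_trans (le_of_eq ?_) this
    ring
  have t2 : 2 / 3 * v ^ 2 ≤ ((clq V C 2).card : ℝ) := by nlinarith [sq_nonneg v]
  have t3 : 2 / 9 * v ^ 3 ≤ ((clq V C 3).card : ℝ) := by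
    calc 2 / 9 * v ^ 3 = 1 / 3 * v * (2 / 3 * v ^ 2) := by ring
      _ ≤ (1 / 3 + 2 * δ) * v * ((clq V C 2).card : ℝ) := by gcongr; linarith
      _ ≤ _ := s1
  calc 2 / 3 * δ * v ^ 4 = (3 * δ) * v * (2 / 9 * v ^ 3) := by ring
    _ ≤ (3 * δ) * v * ((clq V C 3).card : ℝ) := by gcongr
    _ ≤ _ := s2

open Classical in
/-- The density theorem for pairs, with the constant `1 / 3`. -/
theorem dens3 (ε : ℝ) (hε : 0 < ε) (L : ℕ) (hL : 1 ≤ L) : ∃ n0 : ℕ, ∀ (α : Type) (V : Finset α)
      (good : Finset α → Prop), n0 ≤ V.card → BlockP 4 L 2 1 V good →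
      ((1 / 3 : ℝ) - ε) * (V.card.choose 2) ≤ ((V.powersetCard 2).filter good).card := by
  set c : ℝ := 2 / 3 * (ε / 2) with hc
  have hc0 : 0 < c := by positivity
  have : NeZero L := ⟨by omega⟩
  obtain ⟨n1, hn1⟩ := exists_nat_gt ((4 * L : ℝ) ^ 2 / c ^ (L ^ 4))
  obtain ⟨n2, hn2⟩ := exists_nat_ge (4 / ε)
  refine ⟨max (n1 + n2 + 1) 2, fun α V good hV hP => ?_⟩
  by_contra hcon
  push Not at hcon
  have hVpos : 0 < V.card := by have := (le_max_left _ _).trans hV; omega
  have hV2 : 2 ≤ V.card := (le_max_right _ _).trans hV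
  have hVr : (0 : ℝ) < V.card := by exact_mod_cast hVpos
  have hn1' : (n1 : ℝ) ≤ V.card := by
    exact_mod_cast (by have := (le_max_left _ _).trans hV; omega : n1 ≤ V.card)
  have hn2' : (n2 : ℝ) ≤ V.card := by
    exact_mod_cast (by have := (le_max_left _ _).trans hV; omega : n2 ≤ V.card)
  set C : α → α → Prop := fun x y => x ≠ y ∧ ¬ good {x, y} with hC
  have hCs : ∀ x y, C x y → C y x := fun x y h => ⟨h.1.symm, by rw [Finset.pair_comm]; exact h.2⟩
  -- the number of the bad pairs
  have h2 : 2 * (((V.powersetCard 2).filter (fun U => ¬ good U)).card : ℝ) ≤ ((clq V C 2).card : ℝ) := by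
    have e0 : ∑ U ∈ (V.powersetCard 2).filter (fun U => ¬ good U), 2 ≤
        ∑ U ∈ (V.powersetCard 2).filter (fun U => ¬ good U),
          ((clq V C 2).filter (fun f => (univ.image f) = U)).card := by
      apply sum_le_sum
      intro U hU
      rw [mem_filter, mem_powersetCard] at hU
      obtain ⟨⟨hUV, hU2⟩, hUg⟩ := hU
      obtain ⟨x, y, hxy, rfl⟩ := card_eq_two.1 hU2
      have hx : x ∈ V := hUV (by simp)
      have hy : y ∈ V := hUV (by simp)
      have hne : (![x, y] : Fin 2 → α) ≠ ![y, x] := by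
        intro h
        exact hxy (congrFun h 0)
      have hsub : ({![x, y], ![y, x]} : Finset (Fin 2 → α)) ⊆
          (clq V C 2).filter (fun f => (univ.image f) = {x, y}) := by
        intro f hf
        rw [mem_insert, mem_singleton] at hf
        rw [mem_filter, mem_clq]
        rcases hf with rfl | rfl
        · refine ⟨⟨fun i => by fin_cases i <;> simp [hx, hy], fun i j hij => ?_⟩, ?_⟩
          · fin_cases i <;> fin_cases j
            · exact absurd rfl hij
            · exact ⟨hxy, hUg⟩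
            · exact hCs _ _ ⟨hxy, hUg⟩
            · exact absurd rfl hij
          · ext z; simp [Fin.exists_fin_two, eq_comm]
        · refine ⟨⟨fun i => by fin_cases i <;> simp [hx, hy], fun i j hij => ?_⟩, ?_⟩
          · fin_cases i <;> fin_cases j
            · exact absurd rfl hij
            · exact hCs _ _ ⟨hxy, hUg⟩
            · exact ⟨hxy, hUg⟩
            · exact absurd rfl hij
          · ext z; simp [Fin.exists_fin_two, eq_comm, or_comm]
      have := card_le_card hsub
      rwa [card_pair hne] at this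
    have e1 : ∑ U ∈ (V.powersetCard 2).filter (fun U => ¬ good U),
          ((clq V C 2).filter (fun f => (univ.image f) = U)).card ≤ (clq V C 2).card := by
      rw [← card_biUnion]
      · apply card_le_card
        intro f hf
        obtain ⟨U, _, hU⟩ := mem_biUnion.1 hf
        exact (mem_filter.1 hU).1
      · intro U _ U' _ hne
        rw [Function.onFun, disjoint_left]
        intro f hf hf'
        exact hne ((mem_filter.1 hf).2.symm.trans (mem_filter.1 hf').2)
    have e2 := e0.trans e1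
    rw [sum_const, smul_eq_mul] at e2
    have e3 : (((((V.powersetCard 2).filter (fun U => ¬ good U)).card * 2 : ℕ)) : ℝ) ≤
        ((clq V C 2).card : ℝ) := by exact_mod_cast e2
    push_cast at e3
    linarith
  have h3 : (((V.powersetCard 2).filter good).card : ℝ) +
      ((V.powersetCard 2).filter (fun U => ¬ good U)).card = (V.card.choose 2 : ℝ) := by
    have := card_filter_add_card_filter_not (s := V.powersetCard 2) good
    rw [card_powersetCard] at this
    exact_mod_cast this
  have h4 : (V.card.choose 2 : ℝ) = V.card * (V.card - 1) / 2 := Nat.cast_choose_two ℝ V.card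
  have h5 : (2 / 3 + ε / 2) * (V.card : ℝ) ^ 2 ≤ ((clq V C 2).card : ℝ) := by
    refine le_trans ?_ h2
    have e1 : (2 / 3 + ε) * (V.card.choose 2 : ℝ) ≤
        ((V.powersetCard 2).filter (fun U => ¬ good U)).card := by nlinarith
    have e2 : 4 / ε ≤ V.card := hn2.trans hn2'
    rw [div_le_iff₀ hε] at e2
    have e3 : (2 / 3 + ε / 2) * (V.card : ℝ) ^ 2 ≤ 2 * ((2 / 3 + ε) * (V.card.choose 2 : ℝ)) := by
      rw [h4]
      have e4 : 2 / 3 + ε ≤ ε / 2 * V.card := by
        by_cases hε1 : ε ≤ 1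
        · nlinarith
        · -- then the assumption is absurd
          exfalso
          have h6 : (0 : ℝ) ≤ ((V.powersetCard 2).filter good).card := Nat.cast_nonneg _
          have h7 : (0 : ℝ) ≤ (V.card.choose 2 : ℝ) := Nat.cast_nonneg _
          nlinarith
      nlinarith
    linarith
  have h6 := turan4 V C hCs hVpos (ε / 2) (by positivity) h5
  rw [← hc] at h6
  have h7 := box_count (ι := Fin L) V hVpos 4 (clq V C 4) c hc0.le (fun f hf i => (mem_clq.1 hf).1 i) h6
  rw [Fintype.card_fin] at h7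
  -- an injective box
  obtain ⟨A, hAb, hAi⟩ : ∃ A ∈ boxes V (Fin L) (clq V C 4),
      Function.Injective (fun x : Fin 4 × Fin L => A x.1 x.2) := by
    by_contra hno
    push Not at hno
    have e1 : (boxes V (Fin L) (clq V C 4)).card ≤
        ((Fintype.piFinset (fun _ : Fin 4 × Fin L => V)).filter (fun f => ¬ Function.Injective f)).card := by
      apply card_le_card_of_injOn (fun A (x : Fin 4 × Fin L) => A x.1 x.2)
      · intro A hA
        have hA' := hA
        rw [mem_coe] at hA'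
        have hA2 := hno A hA'
        unfold boxes at hA'
        rw [mem_filter, Fintype.mem_piFinset] at hA'
        rw [mem_coe, mem_filter, Fintype.mem_piFinset]
        refine ⟨fun x => ?_, hA2⟩
        have h9 := hA'.1 x.1
        rw [Fintype.mem_piFinset] at h9
        exact h9 x.2
      · intro A _ A' _ h
        funext i x
        exact congrFun h (i, x)
    have e2 := card_not_inj_le (I := Fin 4 × Fin L) V
    rw [Fintype.card_prod, Fintype.card_fin, Fintype.card_fin] at e2
    have e3 : (((boxes V (Fin L) (clq V C 4)).card : ℕ) : ℝ) ≤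
        ((4 * L : ℕ) : ℝ) ^ 2 * (V.card : ℝ) ^ (4 * L - 1) := by exact_mod_cast e1.trans e2
    have e4 := h7.trans e3
    have hp : (V.card : ℝ) ^ (4 * L) = (V.card : ℝ) ^ (4 * L - 1) * V.card := by
      rw [← pow_succ]; congr 1; omega
    rw [hp] at e4
    have hpp : (0 : ℝ) < (V.card : ℝ) ^ (4 * L - 1) := by positivity
    have e5 : c ^ (L ^ 4) * V.card ≤ ((4 * L : ℕ) : ℝ) ^ 2 := by
      have : (c ^ (L ^ 4) * V.card) * (V.card : ℝ) ^ (4 * L - 1) ≤
          ((4 * L : ℕ) : ℝ) ^ 2 * (V.card : ℝ) ^ (4 * L - 1) := by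
        refine le_trans (le_of_eq ?_) e4
        ring
      exact le_of_mul_le_mul_right this hpp
    have hcp : 0 < c ^ (L ^ 4) := by positivity
    rw [div_lt_iff₀ hcp] at hn1
    push_cast at e5
    nlinarith
  unfold boxes at hAb
  rw [mem_filter, Fintype.mem_piFinset] at hAb
  have hAV : ∀ i x, A i x ∈ V := by
    intro i x
    have h9 := hAb.1 i
    rw [Fintype.mem_piFinset] at h9
    exact h9 x
  obtain ⟨S, cc, hS, hU⟩ := hP (fun x => A x.1 x.2) hAi (fun x => hAV _ _)
  obtain ⟨i, hi, j, hj, hij⟩ := one_lt_card.1 (by omega : 1 < S.card)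
  have hcl := (mem_clq.1 (hAb.2 cc)).2 i j hij
  apply hcl.2
  apply hU
  · intro u hu
    rw [mem_insert, mem_singleton] at hu
    rcases hu with rfl | rfl
    · exact ⟨i, hi, rfl⟩
    · exact ⟨j, hj, rfl⟩
  · rw [card_pair hcl.1]

end Pool.Agent.K1H50.LM
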