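import Mathlib
import Pool.Agent.H362R2.R1.Poly
import Pool.Agent.K1H50.LM.Ma

/-! Translation to polynomials, of any sign. -/

set_option autoImplicit false

namespace Pool.Agent.K1H50.LM

open Finset Polynomial Filter Topology
open Pool.Agent.H362R2.R1

/-- the pair of the coefficients, with positive slope -/
noncomputable def ps (f : ℤ[X]) : ℤ × ℤ :=
  if 0 < f.coeff 1 then (f.coeff 1, f.coeff 0) else (-f.coeff 1, -f.coeff 0)

/-- linear and irreducible -/
def LinS (f : ℤ[X]) : Prop := f.natDegree = 1 ∧ Irreducible f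

lemma ps_cases (f : ℤ[X]) : (0 < f.coeff 1 ∧ ps f = (f.coeff 1, f.coeff 0)) ∨
    (f.coeff 1 ≤ 0 ∧ ps f = (-f.coeff 1, -f.coeff 0)) := by
  unfold ps
  split_ifs with h
  · exact Or.inl ⟨h, rfl⟩
  · exact Or.inr ⟨not_lt.1 h, rfl⟩

lemma LinS.form {f : ℤ[X]} (h : LinS f) : f = C (f.coeff 1) * X + C (f.coeff 0) :=
  Polynomial.eq_X_add_C_of_natDegree_le_one h.1.le

lemma LinS.c1 {f : ℤ[X]} (h : LinS f) : f.coeff 1 ≠ 0 := by
  have h1 : f.leadingCoeff ≠ 0 := by
    rw [Ne, leadingCoeff_eq_zero]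
    exact h.2.ne_zero
  unfold Polynomial.leadingCoeff at h1
  rwa [h.1] at h1

lemma LinS.eval {f : ℤ[X]} (h : LinS f) (n : ℤ) : f.eval n = f.coeff 1 * n + f.coeff 0 := by
  conv_lhs => rw [h.form]
  simp

lemma LinS.pos {f : ℤ[X]} (h : LinS f) : 0 < (ps f).1 := by
  rcases ps_cases f with ⟨h1, h2⟩ | ⟨h1, h2⟩ <;> rw [h2]
  · exact h1
  · have := h.c1
    simp only
    omega

lemma LinS.cop {f : ℤ[X]} (h : LinS f) : IsCoprime (ps f).1 (ps f).2 := by
  have h0 : IsCoprime (f.coeff 1) (f.coeff 0) := by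
    have hprim := h.2.isPrimitive (by rw [h.1]; exact one_ne_zero)
    rw [Int.isCoprime_iff_gcd_eq_one]
    have h1 : C ((Int.gcd (f.coeff 1) (f.coeff 0) : ℕ) : ℤ) ∣ f := by
      rw [Polynomial.C_dvd_iff_dvd_coeff]
      intro i
      match i with
      | 0 => exact Int.gcd_dvd_right _ _
      | 1 => exact Int.gcd_dvd_left _ _
      | (j + 2) =>
        have h5 : f.coeff (j + 2) = 0 := Polynomial.coeff_eq_zero_of_natDegree_lt (by rw [h.1]; omega)
        rw [h5]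
        exact dvd_zero _
    have h2 := hprim _ h1
    have h3 := Int.isUnit_iff_natAbs_eq.1 h2
    simpa using h3
  rcases ps_cases f with ⟨h1, h2⟩ | ⟨h1, h2⟩ <;> rw [h2]
  · exact h0
  · exact h0.neg_neg

lemma LinS.natAbs {f : ℤ[X]} (h : LinS f) (n : ℤ) :
    (f.eval n).natAbs = ((ps f).1 * n + (ps f).2).natAbs := by
  rw [h.eval]
  rcases ps_cases f with ⟨h1, h2⟩ | ⟨h1, h2⟩ <;> rw [h2]
  have e : -f.coeff 1 * n + -f.coeff 0 = -(f.coeff 1 * n + f.coeff 0) := by ring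
  simp only
  rw [e, Int.natAbs_neg]

lemma LinS.dvd {f : ℤ[X]} (h : LinS f) (n p : ℤ) :
    p ∣ f.eval n ↔ p ∣ (ps f).1 * n + (ps f).2 := by
  rw [← Int.natAbs_dvd_natAbs, h.natAbs, Int.natAbs_dvd_natAbs]

lemma ps_inj {f g : ℤ[X]} (hf : LinS f) (hg : LinS g) (hne : f ≠ -g) (h : ps f = ps g) : f = g := by
  have key : f = g ∨ f = -g := by
    rw [hf.form, hg.form]
    rcases ps_cases f with ⟨h1, h2⟩ | ⟨h1, h2⟩ <;> rcases ps_cases g with ⟨h3, h4⟩ | ⟨h3, h4⟩ <;>
      rw [h2, h4, Prod.mk.injEq] at h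
    · left; rw [h.1, h.2]
    · right; rw [h.1, h.2]; simp only [map_neg]; ring
    · right
      have e1 : f.coeff 1 = -g.coeff 1 := by linarith [h.1]
      have e2 : f.coeff 0 = -g.coeff 0 := by linarith [h.2]
      rw [e1, e2]; simp only [map_neg]; ring
    · left
      have e1 : f.coeff 1 = g.coeff 1 := by linarith [h.1]
      have e2 : f.coeff 0 = g.coeff 0 := by linarith [h.2]
      rw [e1, e2]
  rcases key with h | h
  · exact h
  · exact absurd h hne

open Classical in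
lemma sum_img {α β : Type} [DecidableEq β] (φ : α → β) (𝓕 : Finset α) (hφ : Set.InjOn φ 𝓕) (r : ℕ)
    (g : Finset α → ℝ) (g' : Finset β → ℝ) (P : Finset α → Prop) (P' : Finset β → Prop)
    (hg : ∀ F ⊆ 𝓕, g F = g' (F.image φ)) (hP : ∀ F ⊆ 𝓕, (P F ↔ P' (F.image φ))) :
    ∑ F ∈ (𝓕.powersetCard r).filter P, g F =
      ∑ T ∈ ((𝓕.image φ).powersetCard r).filter P', g' T := by
  have hc : ∀ F ⊆ 𝓕, (F.image φ).card = F.card := fun F hF =>
    card_image_of_injOn fun x hx y hy h => hφ (hF hx) (hF hy) h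
  apply sum_nbij (fun F => F.image φ)
  · intro F hFm
    rw [mem_filter, mem_powersetCard] at hFm ⊢
    refine ⟨⟨image_subset_image hFm.1.1, ?_⟩, (hP F hFm.1.1).1 hFm.2⟩
    rw [hc F hFm.1.1, hFm.1.2]
  · intro F hFm G hGm h
    rw [mem_coe, mem_filter, mem_powersetCard] at hFm hGm
    have key : ∀ A B : Finset α, A ⊆ 𝓕 → B ⊆ 𝓕 → A.image φ = B.image φ → A ⊆ B := by
      intro A B hA hB hAB f hf
      have h1 : φ f ∈ B.image φ := hAB ▸ mem_image_of_mem _ hf
      obtain ⟨f', hf', he⟩ := Finset.mem_image.1 h1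
      rw [← hφ (hB hf') (hA hf) he]
      exact hf'
    exact Subset.antisymm (key F G hFm.1.1 hGm.1.1 h) (key G F hGm.1.1 hFm.1.1 h.symm)
  · intro T hT
    rw [mem_coe, mem_filter, mem_powersetCard] at hT
    have himg : (𝓕.filter (fun f => φ f ∈ T)).image φ = T := by
      ext x
      constructor
      · intro hx
        obtain ⟨f, hf, rfl⟩ := Finset.mem_image.1 hx
        exact (mem_filter.1 hf).2
      · intro hx
        obtain ⟨f, hf, rfl⟩ := Finset.mem_image.1 (hT.1.1 hx)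
        exact mem_image_of_mem _ (mem_filter.2 ⟨hf, hx⟩)
    refine ⟨𝓕.filter (fun f => φ f ∈ T), ?_, himg⟩
    rw [mem_coe, mem_filter, mem_powersetCard]
    refine ⟨⟨filter_subset _ _, ?_⟩, ?_⟩
    · rw [← hc _ (filter_subset _ _), himg]
      exact hT.1.2
    · rw [hP _ (filter_subset _ _), himg]
      exact hT.2
  · intro F hFm
    rw [mem_filter, mem_powersetCard] at hFm
    exact hg F hFm.1.1

/-- the partial products over the primes up to `z` converge -/
lemma BH_tendsto (T : Finset (ℤ × ℤ)) (h0 : ∀ f ∈ T, 0 < f.1) (hT : ∀ f ∈ T, IsCoprime f.1 f.2) :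
    Tendsto (fun z : ℕ => ∏ p ∈ (Icc 1 z).filter Nat.Prime, lc T p) atTop (𝓝 (BH T)) := by
  have h1 := BH_hasProd T h0 hT
  have h2 : HasProd ((fun p : ℕ => lc T p) ∘ (Subtype.val : {p : ℕ // p.Prime} → ℕ)) (BH T) := h1
  have h3 := (hasProd_subtype_iff_mulIndicator (f := fun p : ℕ => lc T p)
    (s := {p : ℕ | p.Prime}) (a := BH T)).1 h2
  have h4 := (tendsto_add_atTop_iff_nat 1).2 h3.tendsto_prod_nat
  refine h4.congr fun z => ?_
  have hs : (Icc 1 z).filter Nat.Prime = (range (z + 1)).filter Nat.Prime := by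
    ext p
    rw [mem_filter, mem_filter, mem_Icc, mem_range]
    constructor
    · rintro ⟨h5, h6⟩; exact ⟨by omega, h6⟩
    · rintro ⟨h5, h6⟩; exact ⟨⟨h6.one_lt.le, by omega⟩, h6⟩
  rw [hs, prod_filter]
  apply prod_congr rfl
  intro p _
  rw [Set.mulIndicator_apply]
  rfl

/-- complete residue systems -/
lemma card_res (p : ℕ) (P : ℕ → Prop) [DecidablePred P] (hP : ∀ n, P (n + p) ↔ P n) :
    ((Icc 1 p).filter P).card = ((range p).filter P).card := by
  have h1 : Icc 1 p = Ico 1 (1 + p) := by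
    ext n; rw [mem_Icc, mem_Ico]; omega
  rw [h1, Nat.filter_Ico_card_eq_of_periodic 1 p P (fun n => propext (hP n)),
    Nat.count_eq_card_filter_range]

open Classical in
lemma om_ps (F : Finset ℤ[X]) (hF : ∀ f ∈ F, LinS f) {p : ℕ} (hp : p.Prime) :
    ((Icc 1 p).filter (fun n : ℕ => (p : ℤ) ∣ ∏ f ∈ F, f.eval (n : ℤ))).card = om (F.image ps) p := by
  have hpp := Nat.prime_iff_prime_int.1 hp
  have h1 : ∀ n : ℕ, (p : ℤ) ∣ ∏ f ∈ F, f.eval (n : ℤ) ↔
      ∃ g ∈ F.image ps, (p : ℤ) ∣ g.1 * (n : ℤ) + g.2 := by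
    intro n
    rw [Prime.dvd_finsetProd_iff hpp]
    constructor
    · rintro ⟨f, hf, hd⟩
      exact ⟨ps f, mem_image_of_mem _ hf, ((hF f hf).dvd _ _).1 hd⟩
    · rintro ⟨g, hg, hd⟩
      obtain ⟨f, hf, rfl⟩ := Finset.mem_image.1 hg
      exact ⟨f, hf, ((hF f hf).dvd _ _).2 hd⟩
  rw [card_res p (fun n : ℕ => (p : ℤ) ∣ ∏ f ∈ F, f.eval (n : ℤ))]
  · unfold om
    congr 1
    apply filter_congr
    intro n _
    exact h1 n
  · intro n
    rw [h1, h1]
    apply exists_congr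
    intro g
    apply and_congr_right
    intro _
    have e : g.1 * ((n + p : ℕ) : ℤ) + g.2 = (g.1 * (n : ℤ) + g.2) + p * g.1 := by push_cast; ring
    rw [e]
    exact dvd_add_left (dvd_mul_right _ _)

end Pool.Agent.K1H50.LM
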